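import Mathlib

namespace Pool.Agent.H349Z.DS

noncomputable def K (p q r s : ℝ) : ℝ := (q - p) * (s - r) / ((r - q) * (s - p))

theorem K_pos {p q r s : ℝ} (h1 : p < q) (h2 : q < r) (h3 : r < s) : 0 < K p q r s := by
  unfold K
  apply div_pos <;> apply mul_pos <;> linarith

theorem conflict {p q r s p' q' r' s' : ℝ} (h1 : p < q) (h2 : q ≤ p') (h3 : p' < q') (h4 : q' ≤ r)
    (h5 : r < s) (h6 : s ≤ r') (h7 : r' < s') : K p q r s * K p' q' r' s' ≤ 1 := by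
  unfold K
  rw [div_mul_div_comm, div_le_one (by
    apply mul_pos <;> apply mul_pos <;> linarith)]
  have a1 : (q - p) * (s - r) ≤ (s - p) * (r' - q') :=
    mul_le_mul (by linarith) (by linarith) (by linarith) (by linarith)
  have a2 : (q' - p') * (s' - r') ≤ (r - q) * (s' - p') :=
    mul_le_mul (by linarith) (by linarith) (by linarith) (by linarith)
  have a3 := mul_le_mul a1 a2 (by apply mul_nonneg <;> linarith) (by apply mul_nonneg <;> linarith)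
  calc _ ≤ _ := a3
    _ = _ := by ring

theorem gadget {T1 T2 T3 y U1 U2 U3 a1 b1 a2 b2 a3 b3 ac bc ad bd : ℝ}
    (o1 : T1 < T2) (o2 : T2 < T3) (o3 : T3 < y) (o4 : y < U1) (o5 : U1 < U2) (o6 : U2 < U3)
    (h1 : a1 * T1 + b1 < ac * T1 + bc) (h2 : ac * T2 + bc < a2 * T2 + b2)
    (h3 : a3 * T3 + b3 < ac * T3 + bc) (h4 : a3 * T3 + b3 < a2 * T3 + b2)
    (h5 : a2 * y + b2 < a1 * y + b1) (h6 : a2 * y + b2 < a3 * y + b3)
    (h7 : a1 * U1 + b1 < ad * U1 + bd) (h8 : a1 * U1 + b1 < a2 * U1 + b2)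
    (h9 : ad * U2 + bd < a2 * U2 + b2) (h10 : a3 * U3 + b3 < ad * U3 + bd) :
    1 < K T1 T2 T3 y * K y U1 U2 U3 := by
  obtain ⟨A, hA⟩ : ∃ A, A = (a2 * T3 + b2) - (a3 * T3 + b3) := ⟨_, rfl⟩
  obtain ⟨B, hB⟩ : ∃ B, B = (a2 * U1 + b2) - (a1 * U1 + b1) := ⟨_, rfl⟩
  obtain ⟨F, hF⟩ : ∃ F, F = (a1 * T1 + b1) - (a2 * T1 + b2) := ⟨_, rfl⟩
  obtain ⟨G, hG⟩ : ∃ G, G = (a3 * U3 + b3) - (a2 * U3 + b2) := ⟨_, rfl⟩
  have pA : 0 < A := by linarith
  have pB : 0 < B := by linarith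
  have l1 : (T3 - T2) * F < (T2 - T1) * A := by
    have e1 := mul_pos (sub_pos.mpr o2) (sub_pos.mpr h1)
    have e2 := mul_pos (sub_pos.mpr o1) (sub_pos.mpr h3)
    have e3 := mul_pos (sub_pos.mpr (o1.trans o2)) (sub_pos.mpr h2)
    rw [hF, hA]
    linarith
  have l2 : (U2 - U1) * G < (U3 - U2) * B := by
    have e1 := mul_pos (sub_pos.mpr o6) (sub_pos.mpr h7)
    have e2 := mul_pos (sub_pos.mpr o5) (sub_pos.mpr h10)
    have e3 := mul_pos (sub_pos.mpr (o5.trans o6)) (sub_pos.mpr h9)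
    rw [hG, hB]
    linarith
  have l3 : (y - T1) * B < (U1 - y) * F := by
    have e1 := mul_pos (sub_pos.mpr (((o1.trans o2).trans o3).trans o4)) (sub_pos.mpr h5)
    rw [hF, hB]
    linarith
  have l4 : (U3 - y) * A < (y - T3) * G := by
    have e1 := mul_pos (sub_pos.mpr (((o3.trans o4).trans o5).trans o6)) (sub_pos.mpr h6)
    rw [hG, hA]
    linarith
  have m1 : (T3 - T2) * (y - T1) * B < (T2 - T1) * (U1 - y) * A := by
    have e1 := mul_lt_mul_of_pos_left l3 (sub_pos.mpr o2)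
    have e2 := mul_lt_mul_of_pos_left l1 (sub_pos.mpr o4)
    linarith
  have m2 : (U2 - U1) * (U3 - y) * A < (U3 - U2) * (y - T3) * B := by
    have e1 := mul_lt_mul_of_pos_left l4 (sub_pos.mpr o5)
    have e2 := mul_lt_mul_of_pos_left l2 (sub_pos.mpr o3)
    linarith
  have p1 : 0 < (T3 - T2) * (y - T1) := by apply mul_pos <;> linarith
  have p2 : 0 < (U2 - U1) * (U3 - y) := by apply mul_pos <;> linarith
  have m3 := mul_lt_mul'' m1 m2 (mul_pos p1 pB).le (mul_pos p2 pA).le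
  unfold K
  rw [div_mul_div_comm, one_lt_div (mul_pos p1 p2)]
  have pAB := mul_pos pA pB
  apply lt_of_mul_lt_mul_right _ pAB.le
  linarith

theorem chain {x y z : ℝ} (hx : 0 < x) (h1 : x * y ≤ 1) (h2 : 1 < x * z) : y < z := by
  by_contra h
  have := mul_le_mul_of_nonneg_left (not_lt.mp h) hx.le
  linarith

def w (i : Fin 65) : Fin 25 :=
  ⟨((35207332806279976491566489636500249830904466606599465136342207633854071103044815930461206023768096 : ℕ) >>> (5 * i.val)) % 32 % 25, Nat.mod_lt _ (by norm_num)⟩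

theorem w_adj : ∀ i j : Fin 65, i.val + 1 = j.val → w i ≠ w j := by decide +kernel

theorem w_free : ∀ i₁ i₃ : Fin 65, i₁ < i₃ → w i₃ = w i₁ → ∀ i₅ : Fin 65, i₃ < i₅ → w i₅ = w i₁ →
    ∀ i₂ : Fin 65, i₁ < i₂ → i₂ < i₃ → ∀ i₄ : Fin 65, i₃ < i₄ → i₄ < i₅ → w i₄ = w i₂ →
      w i₁ = w i₂ := by decide +kernel

theorem gad (a b : Fin 25 → ℝ) (x : Fin 65 → ℝ) (hx : StrictMono x)
    (key : ∀ k1 k k2 : Fin 65, k1 ≤ k → k ≤ k2 → w k2 = w k1 → w k1 ≠ w k →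
      a (w k) * x k + b (w k) < a (w k1) * x k + b (w k1))
    (cs T1 s2 T2 T3 ce y ds U1 U2 e2 U3 de : Fin 65)
    (h : cs < T1 ∧ T1 < s2 ∧ s2 < T2 ∧ T2 < T3 ∧ T3 < ce ∧ ce < y ∧ y < ds ∧ ds < U1 ∧ U1 < U2 ∧
      U2 < e2 ∧ e2 < U3 ∧ U3 < de ∧ w T2 = w cs ∧ w ce = w cs ∧ w U1 = w T1 ∧ w y = w s2 ∧
      w e2 = w s2 ∧ w U3 = w T3 ∧ w U2 = w ds ∧ w de = w ds ∧ w cs ≠ w T1 ∧ w s2 ≠ w cs ∧
      w cs ≠ w T3 ∧ w s2 ≠ w T3 ∧ w T1 ≠ w s2 ∧ w ds ≠ w T1 ∧ w s2 ≠ w ds ∧ w ds ≠ w T3) :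
    1 < K (x T1) (x T2) (x T3) (x y) * K (x y) (x U1) (x U2) (x U3) := by
  obtain ⟨o1, o2, o3, o4, o5, o6, o7, o8, o9, o10, o11, o12, q1, q2, q3, q4, q5, q6, q7, q8,
    n1, n2, n3, n4, n5, n6, n7, n8⟩ := h
  have h1 := key cs T1 ce (by omega) (by omega) q2 n1
  have h2 := key s2 T2 e2 (by omega) (by omega) q5 (by rw [q1]; exact n2)
  have h3 := key cs T3 ce (by omega) (by omega) q2 n3
  have h4 := key s2 T3 e2 (by omega) (by omega) q5 n4
  have h5 := key T1 y U1 (by omega) (by omega) q3 (by rw [q4]; exact n5)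
  have h6 := key T3 y U3 (by omega) (by omega) q6 (by rw [q4]; exact n4.symm)
  have h7 := key ds U1 de (by omega) (by omega) q8 (by rw [q3]; exact n6)
  have h8 := key s2 U1 e2 (by omega) (by omega) q5 (by rw [q3]; exact n5.symm)
  have h9 := key s2 U2 e2 (by omega) (by omega) q5 (by rw [q7]; exact n7)
  have h10 := key ds U3 de (by omega) (by omega) q8 (by rw [q6]; exact n8)
  rw [q1] at h2
  rw [q4] at h5 h6
  rw [q3] at h7 h8
  rw [q7] at h9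
  rw [q6] at h10
  exact gadget (hx (by omega)) (hx o4) (hx (by omega)) (hx (by omega)) (hx o9) (hx (by omega))
    h1 h2 h3 h4 h5 h6 h7 h8 h9 h10

end Pool.Agent.H349Z.DS
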